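import Mathlib

/-!
# Toggles of sets without a related pair: orbit structure of products of toggles
-/

namespace Pool.Agent.Q33.Fence

open Finset

set_option linter.unusedSectionVars false

variable {α : Type*} [DecidableEq α]

/-- The finite sets which contain no pair in the relation `r`. -/
def St (r : α → α → Prop) := {A : Finset α // ∀ u ∈ A, ∀ v ∈ A, ¬ r u v}

open Classical in
/-- The toggle at `x`: the symmetric difference with `{x}` if this is allowed. -/
noncomputable def tog (r : α → α → Prop) (x : α) (A : St r) : St r :=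
  if h : ∀ u ∈ symmDiff A.1 {x}, ∀ v ∈ symmDiff A.1 {x}, ¬ r u v then ⟨symmDiff A.1 {x}, h⟩ else A

variable {r : α → α → Prop}

lemma St.ext' {A B : St r} (h : ∀ y, y ∈ A.1 ↔ y ∈ B.1) : A = B :=
  Subtype.ext (Finset.ext h)

lemma tog_invol (x : α) : Function.Involutive (tog r x) := by
  intro A
  unfold tog
  by_cases h : ∀ u ∈ symmDiff A.1 {x}, ∀ v ∈ symmDiff A.1 {x}, ¬ r u v
  · rw [dif_pos h]
    have h2 : ∀ u ∈ symmDiff (symmDiff A.1 {x}) {x}, ∀ v ∈ symmDiff (symmDiff A.1 {x}) {x}, ¬ r u v := by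
      rw [symmDiff_assoc, symmDiff_self, symmDiff_bot]; exact A.2
    rw [dif_pos h2]
    apply Subtype.ext
    show symmDiff (symmDiff A.1 {x}) {x} = A.1
    rw [symmDiff_assoc, symmDiff_self, symmDiff_bot]
  · rw [dif_neg h, dif_neg h]

/-- Two elements are adjacent if one is related to the other. -/
def adj (r : α → α → Prop) (u v : α) : Prop := r u v ∨ r v u

lemma adj_symm {u v : α} (h : adj r u v) : adj r v u := h.symm

lemma adj_comm {u v : α} : adj r u v ↔ adj r v u := ⟨adj_symm, adj_symm⟩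

lemma not_adj {A : St r} {u v : α} (hu : u ∈ A.1) (hv : v ∈ A.1) : ¬ adj r u v := by
  rintro (h | h)
  · exact A.2 u hu v hv h
  · exact A.2 v hv u hu h

lemma mem_tog_ne {x y : α} (h : y ≠ x) (A : St r) : y ∈ (tog r x A).1 ↔ y ∈ A.1 := by
  unfold tog
  split_ifs with h1
  · simp [Finset.mem_symmDiff, h]
  · rfl

lemma mem_tog_self (hr : ∀ x, ¬ r x x) (x : α) (A : St r) :
    x ∈ (tog r x A).1 ↔ x ∉ A.1 ∧ ∀ u ∈ A.1, ¬ adj r u x := by
  unfold tog
  split_ifs with h1
  · simp only [Finset.mem_symmDiff, Finset.mem_singleton]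
    constructor
    · rintro (h | h)
      · exact absurd trivial h.2
      · refine ⟨h.2, fun u hu => ?_⟩
        have hux : u ≠ x := fun e => h.2 (e ▸ hu)
        have a1 : u ∈ symmDiff A.1 {x} := by simp [Finset.mem_symmDiff, hu, hux]
        have a2 : x ∈ symmDiff A.1 {x} := by simp [Finset.mem_symmDiff, h.2]
        rintro (h3 | h3)
        · exact h1 u a1 x a2 h3
        · exact h1 x a2 u a1 h3
    · rintro ⟨h, _⟩
      exact Or.inr ⟨trivial, h⟩
  · constructor
    · intro hx
      exfalso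
      apply h1
      intro u hu v hv
      have e : ∀ w, w ∈ symmDiff A.1 {x} → w ∈ A.1 := by
        intro w hw
        simp only [Finset.mem_symmDiff, Finset.mem_singleton] at hw
        rcases hw with hw | hw
        · exact hw.1
        · rw [hw.1]; exact hx
      exact A.2 u (e u hu) v (e v hv)
    · rintro ⟨h, h2⟩
      exfalso
      apply h1
      intro u hu v hv
      simp only [Finset.mem_symmDiff, Finset.mem_singleton] at hu hv
      rcases hu with hu | hu <;> rcases hv with hv | hv
      · exact A.2 u hu.1 v hv.1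
      · rw [hv.1]; exact fun e => h2 u hu.1 (Or.inl e)
      · rw [hu.1]; exact fun e => h2 v hv.1 (Or.inr e)
      · rw [hu.1, hv.1]; exact hr x

/-- The toggle as a permutation. -/
noncomputable def togP (r : α → α → Prop) (x : α) : Equiv.Perm (St r) := (tog_invol (r := r) x).toPerm

@[simp] lemma togP_apply (x : α) (A : St r) : togP r x A = tog r x A := rfl

lemma togP_mul_self (x : α) : togP r x * togP r x = 1 := by
  ext A : 1
  simp [tog_invol x A]

/-- The product of the toggles along a list. -/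
noncomputable def cox (r : α → α → Prop) (l : List α) : Equiv.Perm (St r) := (l.map (togP r)).prod

@[simp] lemma cox_nil : cox r [] = 1 := rfl
@[simp] lemma cox_cons (x : α) (l : List α) : cox r (x :: l) = togP r x * cox r l := by simp [cox]
lemma cox_append (l l' : List α) : cox r (l ++ l') = cox r l * cox r l' := by simp [cox]

lemma mem_cox_notMem {l : List α} {y : α} (hy : y ∉ l) (A : St r) :
    y ∈ (cox r l A).1 ↔ y ∈ A.1 := by
  induction l generalizing A with
  | nil => rfl
  | cons x l ih =>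
    rw [cox_cons]
    simp only [List.mem_cons, not_or] at hy
    show y ∈ (tog r x (cox r l A)).1 ↔ _
    rw [mem_tog_ne hy.1, ih hy.2]

/-- Toggles at non-adjacent places commute. -/
lemma tog_comm (hr : ∀ x, ¬ r x x) {x y : α} (h : ¬ adj r x y) :
    togP r x * togP r y = togP r y * togP r x := by
  rcases eq_or_ne x y with rfl | hxy
  · rfl
  ext A : 1
  show tog r x (tog r y A) = tog r y (tog r x A)
  apply St.ext'
  intro z
  have key : ∀ {x y : α}, x ≠ y → ¬ adj r x y →
      (x ∈ (tog r x (tog r y A)).1 ↔ x ∈ (tog r x A).1) := by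
    intro x y hxy h
    rw [mem_tog_self hr, mem_tog_self hr, mem_tog_ne hxy]
    constructor
    · rintro ⟨h1, h2⟩
      refine ⟨h1, fun u hu => ?_⟩
      by_cases huy : u = y
      · subst huy; exact fun e => h (adj_symm e)
      · exact h2 u ((mem_tog_ne huy A).2 hu)
    · rintro ⟨h1, h2⟩
      refine ⟨h1, fun u hu => ?_⟩
      by_cases huy : u = y
      · subst huy; exact fun e => h (adj_symm e)
      · exact h2 u ((mem_tog_ne huy A).1 hu)
  by_cases hzx : z = x
  · subst hzx
    rw [key hxy h, mem_tog_ne hxy]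
  · by_cases hzy : z = y
    · subst hzy
      rw [mem_tog_ne hzx, key (Ne.symm hxy) (fun e => h (adj_symm e))]
    · rw [mem_tog_ne hzx, mem_tog_ne hzy, mem_tog_ne hzy, mem_tog_ne hzx]

lemma cox_comm (hr : ∀ x, ¬ r x x) {l l' : List α} (h : ∀ x ∈ l, ∀ y ∈ l', ¬ adj r x y) :
    cox r l * cox r l' = cox r l' * cox r l := by
  have one : ∀ x, ∀ l' : List α, (∀ y ∈ l', ¬ adj r x y) →
      togP r x * cox r l' = cox r l' * togP r x := by
    intro x l' hx
    induction l' with
    | nil => simp
    | cons y l' ih =>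
      rw [cox_cons, ← mul_assoc, tog_comm hr (hx y (by simp)), mul_assoc,
        ih (fun z hz => hx z (by simp [hz])), mul_assoc]
  induction l with
  | nil => simp
  | cons x l ih =>
    rw [cox_cons, mul_assoc, ih (fun z hz => h z (by simp [hz])), ← mul_assoc,
      one x l' (h x (by simp)), mul_assoc]

/-- The indicator function of `v`. -/
noncomputable def chi (v : α) (A : St r) : ℝ := if v ∈ A.1 then 1 else 0

lemma chi_congr {v : α} {A B : St r} (h : v ∈ A.1 ↔ v ∈ B.1) : chi v A = chi v B := by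
  unfold chi
  by_cases h1 : v ∈ A.1
  · rw [if_pos h1, if_pos (h.1 h1)]
  · rw [if_neg h1, if_neg (fun e => h1 (h.2 e))]

/-- `w` and `w'` are conjugate by a permutation that changes each indicator function by a
coboundary. -/
def Eqv (w w' : Equiv.Perm (St r)) : Prop :=
  ∃ ψ : Equiv.Perm (St r), w * ψ = ψ * w' ∧
    ∀ v, ∃ k : St r → ℝ, ∀ A, chi v (ψ A) - chi v A = k (w' A) - k A

lemma Eqv.refl (w : Equiv.Perm (St r)) : Eqv w w :=
  ⟨1, by simp, fun v => ⟨fun _ => 0, fun A => by simp⟩⟩

lemma Eqv.symm {w w' : Equiv.Perm (St r)} (h : Eqv w w') : Eqv w' w := by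
  obtain ⟨ψ, h1, h2⟩ := h
  refine ⟨ψ⁻¹, ?_, fun v => ?_⟩
  · rw [eq_inv_mul_iff_mul_eq, ← mul_assoc, ← h1]; simp
  · obtain ⟨k, hk⟩ := h2 v
    refine ⟨fun B => - k (ψ⁻¹ B), fun B => ?_⟩
    have e := hk (ψ⁻¹ B)
    have e2 : ψ⁻¹ (w B) = w' (ψ⁻¹ B) := by
      have : w = ψ * w' * ψ⁻¹ := by rw [← h1]; simp
      rw [this]; simp
    show chi v (ψ⁻¹ B) - chi v B = -k (ψ⁻¹ (w B)) - -k (ψ⁻¹ B)
    rw [e2]
    have e3 : ψ (ψ⁻¹ B) = B := by simp
    rw [e3] at e
    linarith

lemma Eqv.trans {w w' w'' : Equiv.Perm (St r)} (h : Eqv w w') (h' : Eqv w' w'') : Eqv w w'' := by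
  obtain ⟨ψ, h1, h2⟩ := h
  obtain ⟨φ, h3, h4⟩ := h'
  refine ⟨ψ * φ, ?_, fun v => ?_⟩
  · rw [← mul_assoc, h1, mul_assoc, h3, mul_assoc]
  · obtain ⟨k, hk⟩ := h2 v
    obtain ⟨m, hm⟩ := h4 v
    refine ⟨fun A => k (φ A) + m A, fun A => ?_⟩
    have e1 := hk (φ A)
    have e2 := hm A
    have e3 : w' (φ A) = φ (w'' A) := by
      have := congrArg (fun f : Equiv.Perm (St r) => f A) h3
      simpa using this
    rw [e3] at e1
    simp only [Equiv.Perm.coe_mul, Function.comp_apply]
    linarith

lemma Eqv.of_eq {w w' : Equiv.Perm (St r)} (h : w = w') : Eqv w w' := h ▸ Eqv.refl w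

/-- Rotation of one letter. -/
lemma rot_one {x : α} {l : List α} (hx : x ∉ l) : Eqv (cox r (x :: l)) (cox r (l ++ [x])) := by
  refine ⟨togP r x, ?_, fun v => ?_⟩
  · rw [cox_cons, cox_append]
    simp only [cox_cons, cox_nil, mul_one]
    rw [mul_assoc]
  · by_cases hv : v = x
    · subst hv
      refine ⟨chi v, fun A => ?_⟩
      have e : cox r (l ++ [v]) A = cox r l (tog r v A) := by
        rw [cox_append]; simp
      have e2 : chi v (togP r v A) = chi v (cox r (l ++ [v]) A) := by
        rw [e]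
        exact chi_congr (mem_cox_notMem hx _).symm
      rw [e2]
    · refine ⟨fun _ => 0, fun A => ?_⟩
      rw [chi_congr (A := togP r x A) (B := A) (mem_tog_ne hv A)]
      show _ = (0 : ℝ) - 0
      ring

end Pool.Agent.Q33.Fence
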