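import Pool.Agent.Q33.Fence.Core

/-!
# Exchange of two adjacent toggles
-/

namespace Pool.Agent.Q33.Fence

open Finset

set_option linter.unusedSectionVars false

variable {α : Type*} [DecidableEq α] {r : α → α → Prop}

/-- `c` has no neighbours outside a clique through `b`, and `R` is the set of vertices which are
attached at `b` only. -/
structure Exch (r : α → α → Prop) (b c : α) (R : α → Prop) : Prop where
  bc : adj r b c
  ne : b ≠ c
  Rb : ¬ R b
  Rc : ¬ R c
  nb : ∀ z, z ≠ b → z ≠ c → ¬ R z → (adj r z b ↔ adj r z c)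
  LR : ∀ z y, z ≠ b → ¬ R z → R y → ¬ adj r z y

variable {b c : α} {R : α → Prop}

/-- No neighbour of `b` in `R` is present. -/
def ZZ (b : α) (R : α → Prop) (A : St r) : Prop := ∀ u ∈ A.1, R u → ¬ adj r u b

lemma ZZ_of_mem {A : St r} (h : b ∈ A.1) : ZZ b R A := fun _ hu _ => not_adj hu h

lemma ZZ_congr {A B : St r} (h : ∀ u, R u → (u ∈ A.1 ↔ u ∈ B.1)) : ZZ b R A ↔ ZZ b R B :=
  ⟨fun hA u hu hR => hA u ((h u hR).2 hu) hR, fun hB u hu hR => hB u ((h u hR).1 hu) hR⟩

lemma insert_ok (hr : ∀ x, ¬ r x x) {c : α} {S : Finset α}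
    (h1 : ∀ u ∈ S, ∀ v ∈ S, ¬ r u v) (h2 : ∀ u ∈ S, ¬ adj r u c) :
    ∀ u ∈ insert c S, ∀ v ∈ insert c S, ¬ r u v := by
  intro u hu v hv
  rw [Finset.mem_insert] at hu hv
  rcases hu with hu | hu <;> rcases hv with hv | hv
  · rw [hu, hv]; exact hr c
  · rw [hu]; exact fun e => h2 v hv (Or.inr e)
  · rw [hv]; exact fun e => h2 u hu (Or.inl e)
  · exact h1 u hu v hv

lemma Exch.Rn (H : Exch r b c R) {z : α} (hz : R z) : ¬ adj r z c :=
  fun e => H.LR c z (Ne.symm H.ne) H.Rc hz (adj_symm e)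

lemma Exch.notboth (H : Exch r b c R) {A : St r} (hb : b ∈ A.1) : c ∉ A.1 :=
  fun hc => not_adj hb hc H.bc

open Classical in
/-- The exchange of `b` and `c` where it is possible. -/
noncomputable def sw (hr : ∀ x, ¬ r x x) (H : Exch r b c R) (A : St r) : St r :=
  if hb : b ∈ A.1 then
    ⟨insert c (A.1.erase b), insert_ok hr
      (fun u hu v hv => A.2 u (Finset.mem_of_mem_erase hu) v (Finset.mem_of_mem_erase hv)) (by
        intro x hx
        have hxA := Finset.mem_of_mem_erase hx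
        have hxb := Finset.ne_of_mem_erase hx
        have hxc : x ≠ c := by
          rintro rfl
          exact not_adj hb hxA H.bc
        by_cases hR : R x
        · exact H.Rn hR
        · rw [← H.nb x hxb hxc hR]
          exact not_adj hxA hb)⟩
  else if hc : c ∈ A.1 ∧ ZZ b R A then
    ⟨insert b (A.1.erase c), insert_ok hr
      (fun u hu v hv => A.2 u (Finset.mem_of_mem_erase hu) v (Finset.mem_of_mem_erase hv)) (by
        intro x hx
        have hxA := Finset.mem_of_mem_erase hx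
        have hxc := Finset.ne_of_mem_erase hx
        have hxb : x ≠ b := by
          rintro rfl
          exact hb hxA
        by_cases hR : R x
        · exact hc.2 x hxA hR
        · rw [H.nb x hxb hxc hR]
          exact not_adj hxA hc.1)⟩
  else A


lemma mem_sw_b (hr : ∀ x, ¬ r x x) (H : Exch r b c R) (A : St r) : b ∈ (sw hr H A).1 ↔ c ∈ A.1 ∧ ZZ b R A := by
  unfold sw
  split_ifs with hb hc
  · have hc := H.notboth hb
    simp only [Finset.mem_insert, Finset.mem_erase]
    constructor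
    · rintro (e | e)
      · exact absurd e H.ne
      · exact absurd rfl e.1
    · rintro ⟨e, _⟩
      exact absurd e hc
  · simp only [Finset.mem_insert, true_or, true_iff]
    exact hc
  · constructor
    · intro e; exact absurd e hb
    · intro e; exact absurd e hc

lemma mem_sw_c (hr : ∀ x, ¬ r x x) (H : Exch r b c R) (A : St r) : c ∈ (sw hr H A).1 ↔ b ∈ A.1 ∨ (c ∈ A.1 ∧ ¬ ZZ b R A) := by
  unfold sw
  split_ifs with hb hc
  · simp only [Finset.mem_insert, true_or, true_iff]
    exact Or.inl hb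
  · simp only [Finset.mem_insert, Finset.mem_erase]
    constructor
    · rintro (e | e)
      · exact absurd e.symm H.ne
      · exact absurd rfl e.1
    · rintro (e | e)
      · exact absurd e hb
      · exact absurd hc.2 e.2
  · constructor
    · intro e
      exact Or.inr ⟨e, fun h => hc ⟨e, h⟩⟩
    · rintro (e | e)
      · exact absurd e hb
      · exact e.1

lemma mem_sw_ne (hr : ∀ x, ¬ r x x) (H : Exch r b c R) (A : St r) {y : α} (hb : y ≠ b) (hc : y ≠ c) :
    y ∈ (sw hr H A).1 ↔ y ∈ A.1 := by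
  unfold sw
  split_ifs
  · simp [hb, hc]
  · simp [hb, hc]
  · rfl

lemma sw_R (hr : ∀ x, ¬ r x x) (H : Exch r b c R) (A : St r) {y : α} (hy : R y) : y ∈ (sw hr H A).1 ↔ y ∈ A.1 :=
  mem_sw_ne hr H A (fun e => H.Rb (e ▸ hy)) (fun e => H.Rc (e ▸ hy))

lemma ZZ_sw (hr : ∀ x, ¬ r x x) (H : Exch r b c R) (A : St r) : ZZ b R (sw hr H A) ↔ ZZ b R A := ZZ_congr fun _ hu => sw_R hr H A hu

lemma sw_invol (hr : ∀ x, ¬ r x x) (H : Exch r b c R) : Function.Involutive (sw hr H) := by
  intro A
  apply St.ext'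
  intro y
  have z := ZZ_sw hr H A
  have f1 : b ∈ A.1 → ZZ b R A := ZZ_of_mem
  have f2 : b ∈ A.1 → c ∉ A.1 := H.notboth
  by_cases hb : y = b
  · subst hb
    rw [mem_sw_b, mem_sw_c, z]
    tauto
  · by_cases hc : y = c
    · subst hc
      rw [mem_sw_c, mem_sw_b, mem_sw_c, z]
      tauto
    · rw [mem_sw_ne hr H _ hb hc, mem_sw_ne hr H _ hb hc]

/-- The exchange as a permutation. -/
noncomputable def swP (hr : ∀ x, ¬ r x x) (H : Exch r b c R) : Equiv.Perm (St r) := (sw_invol hr H).toPerm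

lemma swP_apply (hr : ∀ x, ¬ r x x) (H : Exch r b c R) (A : St r) : swP hr H A = sw hr H A := rfl

/-- The exchange commutes with the toggles on the left. -/
lemma sw_comm_tog (hr : ∀ x, ¬ r x x) (H : Exch r b c R) {z : α} (hzb : z ≠ b) (hzc : z ≠ c) (hz : ¬ R z) :
    swP hr H * togP r z = togP r z * swP hr H := by
  ext A : 1
  show sw hr H (tog r z A) = tog r z (sw hr H A)
  apply St.ext'
  intro y
  have hZ : ZZ b R (tog r z A) ↔ ZZ b R A :=
    ZZ_congr fun u hu => mem_tog_ne (x := z) (y := u) (fun e => hz (e ▸ hu)) A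
  by_cases hb : y = b
  · subst hb
    rw [mem_sw_b, mem_tog_ne (Ne.symm hzc), hZ, mem_tog_ne (Ne.symm hzb), mem_sw_b]
  · by_cases hc : y = c
    · subst hc
      rw [mem_sw_c, mem_tog_ne (Ne.symm hzc), mem_tog_ne (Ne.symm hzb), hZ,
        mem_tog_ne (Ne.symm hzc), mem_sw_c]
    · rw [mem_sw_ne hr H _ hb hc]
      by_cases hyz : y = z
      · subst hyz
        rw [mem_tog_self hr, mem_tog_self hr, mem_sw_ne hr H _ hb hc]
        refine and_congr_right fun _ => ?_
        have e1 := H.nb y hb hc hz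
        have e2 := mem_sw_b hr H A
        have e3 := mem_sw_c hr H A
        constructor
        · intro h u hu
          by_cases hub : u = b
          · subst hub
            rw [adj_comm, e1, adj_comm]
            exact h c (e2.1 hu).1
          · by_cases huc : u = c
            · subst huc
              rcases e3.1 hu with h4 | h4
              · rw [adj_comm, ← e1, adj_comm]
                exact h b h4
              · exact h _ h4.1
            · exact h u ((mem_sw_ne hr H A hub huc).1 hu)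
        · intro h u hu
          by_cases hub : u = b
          · subst hub
            rw [adj_comm, e1, adj_comm]
            exact h c (e3.2 (Or.inl hu))
          · by_cases huc : u = c
            · subst huc
              by_cases h4 : ZZ b R A
              · rw [adj_comm, ← e1, adj_comm]
                exact h b (e2.2 ⟨hu, h4⟩)
              · exact h _ (e3.2 (Or.inr ⟨hu, h4⟩))
            · exact h u ((mem_sw_ne hr H A hub huc).2 hu)
      · rw [mem_tog_ne hyz, mem_tog_ne hyz, mem_sw_ne hr H _ hb hc]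

lemma sw_comm_cox (hr : ∀ x, ¬ r x x) (H : Exch r b c R) {l : List α} (h : ∀ z ∈ l, z ≠ b ∧ z ≠ c ∧ ¬ R z) :
    swP hr H * cox r l = cox r l * swP hr H := by
  induction l with
  | nil => simp
  | cons x l ih =>
    obtain ⟨h1, h2, h3⟩ := h x (by simp)
    rw [cox_cons, ← mul_assoc, sw_comm_tog hr H h1 h2 h3, mul_assoc,
      ih (fun z hz => h z (by simp [hz])), mul_assoc]

/-- The action on `R` depends only on `R` and on the presence of `b`. -/
lemma cox_R (hr : ∀ x, ¬ r x x) (H : Exch r b c R) {l : List α} (hl : ∀ z ∈ l, R z) {A B : St r}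
    (hb : b ∈ A.1 ↔ b ∈ B.1) (hR : ∀ u, R u → (u ∈ A.1 ↔ u ∈ B.1)) :
    ∀ u, R u → (u ∈ (cox r l A).1 ↔ u ∈ (cox r l B).1) := by
  induction l with
  | nil => exact hR
  | cons x l ih =>
    have ih' := ih (fun z hz => hl z (by simp [hz]))
    have hbl : b ∉ l := fun hm => H.Rb (hl b (by simp [hm]))
    intro u hu
    have hx : R x := hl x (by simp)
    show u ∈ (tog r x (cox r l A)).1 ↔ u ∈ (tog r x (cox r l B)).1
    by_cases hux : u = x
    · subst hux
      rw [mem_tog_self hr, mem_tog_self hr, ih' u hu]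
      refine and_congr_right fun _ => ?_
      have key : ∀ (C D : St r), (∀ u, R u → (u ∈ C.1 ↔ u ∈ D.1)) → (b ∈ C.1 ↔ b ∈ D.1) →
          (∀ v ∈ C.1, ¬ adj r v u) → ∀ v ∈ D.1, ¬ adj r v u := by
        intro C D h1 h2 h3 v hv
        by_cases hvb : v = b
        · subst hvb; exact h3 _ (h2.2 hv)
        · by_cases hvR : R v
          · exact h3 v ((h1 v hvR).2 hv)
          · exact H.LR v u hvb hvR hu
      have hb' : b ∈ (cox r l A).1 ↔ b ∈ (cox r l B).1 := by
        rw [mem_cox_notMem hbl, mem_cox_notMem hbl, hb]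
      exact ⟨key _ _ ih' hb', key _ _ (fun u hu => (ih' u hu).symm) hb'.symm⟩
    · rw [mem_tog_ne hux, mem_tog_ne hux, ih' u hu]

/-- No neighbour of `c` other than `b` is present. -/
def FF (r : α → α → Prop) (b c : α) (A : St r) : Prop := ∀ u ∈ A.1, u ≠ b → ¬ adj r u c

lemma free_c {A : St r} (hb : b ∉ A.1) : (∀ u ∈ A.1, ¬ adj r u c) ↔ FF r b c A :=
  ⟨fun h u hu _ => h u hu, fun h u hu => h u hu (fun e => hb (e ▸ hu))⟩

lemma mem_tog_c (hr : ∀ x, ¬ r x x) (H : Exch r b c R) (A : St r) : c ∈ (tog r c A).1 ↔ c ∉ A.1 ∧ b ∉ A.1 ∧ FF r b c A := by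
  rw [mem_tog_self hr]
  refine and_congr_right fun hc => ?_
  constructor
  · intro h
    have hb : b ∉ A.1 := fun hb => h b hb H.bc
    exact ⟨hb, (free_c hb).1 h⟩
  · rintro ⟨hb, h⟩
    exact (free_c hb).2 h

lemma free_b (H : Exch r b c R) {A : St r} (hc : c ∉ A.1) (hb : b ∉ A.1) :
    (∀ u ∈ A.1, ¬ adj r u b) ↔ FF r b c A ∧ ZZ b R A := by
  constructor
  · intro h
    refine ⟨fun u hu hub => ?_, fun u hu _ => h u hu⟩
    by_cases hR : R u
    · exact H.Rn hR
    · rw [← H.nb u hub (fun e => hc (e ▸ hu)) hR]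
      exact h u hu
  · rintro ⟨h1, h2⟩ u hu
    by_cases hR : R u
    · exact h2 u hu hR
    · have hub : u ≠ b := fun e => hb (e ▸ hu)
      rw [H.nb u hub (fun e => hc (e ▸ hu)) hR]
      exact h1 u hu hub

lemma mem_tog_b (hr : ∀ x, ¬ r x x) (H : Exch r b c R) (A : St r) :
    b ∈ (tog r b A).1 ↔ b ∉ A.1 ∧ c ∉ A.1 ∧ FF r b c A ∧ ZZ b R A := by
  rw [mem_tog_self hr]
  refine and_congr_right fun hb => ?_
  constructor
  · intro h
    have hc : c ∉ A.1 := fun hc => h c hc (adj_symm H.bc)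
    exact ⟨hc, (free_b H hc hb).1 h⟩
  · rintro ⟨hc, h⟩
    exact (free_b H hc hb).2 h

lemma FF_of_c {A : St r} (hc : c ∈ A.1) : FF r b c A := fun u hu _ => not_adj hu hc

lemma FF_of_b (H : Exch r b c R) {A : St r} (hb : b ∈ A.1) : FF r b c A := by
  intro u hu hub
  by_cases hR : R u
  · exact H.Rn hR
  · have huc : u ≠ c := by
      rintro rfl
      exact H.notboth hb hu
    rw [← H.nb u hub huc hR]
    exact not_adj hu hb

lemma FF_congr (H : Exch r b c R) {A B : St r} (h : ∀ u, u ≠ b → ¬ R u → adj r u c → (u ∈ A.1 ↔ u ∈ B.1)) :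
    FF r b c A ↔ FF r b c B := by
  have key : ∀ (C D : St r), (∀ u, u ≠ b → ¬ R u → adj r u c → (u ∈ C.1 ↔ u ∈ D.1)) →
      FF r b c C → FF r b c D := by
    intro C D h1 h2 u hu hub hadj
    have hR : ¬ R u := fun hR => H.Rn hR hadj
    exact h2 u ((h1 u hub hR hadj).2 hu) hub hadj
  exact ⟨key _ _ h, key _ _ (fun u h1 h2 h3 => (h u h1 h2 h3).symm)⟩

lemma adj_irr (hr : ∀ x, ¬ r x x) (x : α) : ¬ adj r x x := by
  rintro (h | h) <;> exact hr x h

lemma prop1 (pb pc F Z : Prop) (f1 : pb → Z) (f2 : pb → ¬ pc) (f3 : pb → F) (f4 : pc → F) :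
    (¬ pb ∧ ¬ (¬ pc ∧ ¬ pb ∧ F) ∧ F ∧ Z) ↔ (pc ∧ Z) := by
  by_cases pb <;> by_cases pc <;> by_cases F <;> by_cases Z <;> simp_all

lemma prop2 (pb pc F Z Z' : Prop) :
    (¬ (pc ∧ Z) ∧ ¬ (pb ∨ (pc ∧ ¬ Z)) ∧ F ∧ Z') ↔ (¬ pc ∧ ¬ pb ∧ F ∧ Z') := by
  by_cases pb <;> by_cases pc <;> by_cases F <;> by_cases Z <;> by_cases Z' <;> simp_all

lemma prop3 (pb pc F Z Z' : Prop) (f1 : pb → Z) (f2 : pb → ¬ pc) (f3 : pb → F) (f4 : pc → F) :
    ((pc ∧ Z) ∨ ((¬ pc ∧ ¬ pb ∧ F) ∧ ¬ Z')) ↔
      (¬ (pb ∨ (pc ∧ ¬ Z)) ∧ ¬ (¬ pc ∧ ¬ pb ∧ F ∧ Z') ∧ F) := by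
  by_cases pb <;> by_cases pc <;> by_cases F <;> by_cases Z <;> by_cases Z' <;> simp_all

/-- The main identity. -/
lemma star (hr : ∀ x, ¬ r x x) (H : Exch r b c R) {l : List α} (hl : ∀ z ∈ l, R z) :
    swP hr H * (cox r l * (togP r b * togP r c)) = togP r c * (togP r b * (cox r l * swP hr H)) := by
  have hbl : b ∉ l := fun hm => H.Rb (hl b hm)
  have hcl : c ∉ l := fun hm => H.Rc (hl c hm)
  ext A : 1
  show sw hr H (cox r l (tog r b (tog r c A))) = tog r c (tog r b (cox r l (sw hr H A)))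
  -- membership facts
  have hcA : c ∈ (tog r c A).1 ↔ c ∉ A.1 ∧ b ∉ A.1 ∧ FF r b c A := mem_tog_c hr H A
  have hFc : FF r b c (tog r c A) ↔ FF r b c A :=
    FF_congr H fun u _ _ hadj => mem_tog_ne (x := c) (y := u) (fun e => adj_irr hr c (by rwa [e] at hadj)) A
  have hZc : ZZ b R (tog r c A) ↔ ZZ b R A :=
    ZZ_congr fun u hu => mem_tog_ne (x := c) (y := u) (fun e => H.Rc (e ▸ hu)) A
  have f1 : b ∈ A.1 → ZZ b R A := ZZ_of_mem
  have f2 : b ∈ A.1 → c ∉ A.1 := H.notboth
  have f3 : b ∈ A.1 → FF r b c A := FF_of_b H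
  have f4 : c ∈ A.1 → FF r b c A := FF_of_c
  have hb2 : b ∈ (tog r b (tog r c A)).1 ↔ c ∈ A.1 ∧ ZZ b R A := by
    rw [mem_tog_b hr H, hcA, hFc, hZc, mem_tog_ne H.ne]
    exact prop1 _ _ _ _ f1 f2 f3 f4
  have hbs := mem_sw_b hr H A
  have hcs := mem_sw_c hr H A
  have hc2 : c ∈ (tog r b (tog r c A)).1 ↔ c ∉ A.1 ∧ b ∉ A.1 ∧ FF r b c A := by
    rw [mem_tog_ne (Ne.symm H.ne), hcA]
  -- the action on R
  have hRR : ∀ u, R u → (u ∈ (tog r b (tog r c A)).1 ↔ u ∈ (sw hr H A).1) := by
    intro u hu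
    have hub : u ≠ b := fun e => H.Rb (e ▸ hu)
    have huc : u ≠ c := fun e => H.Rc (e ▸ hu)
    rw [mem_tog_ne hub, mem_tog_ne huc, sw_R hr H A hu]
  have hR := cox_R hr H hl (hb2.trans hbs.symm) hRR
  have hZZ : ZZ b R (cox r l (tog r b (tog r c A))) ↔ ZZ b R (cox r l (sw hr H A)) := ZZ_congr hR
  have hFs : FF r b c (cox r l (sw hr H A)) ↔ FF r b c A := by
    apply FF_congr H
    intro u hub huR hadj
    have huc : u ≠ c := fun e => adj_irr hr c (by rwa [e] at hadj)
    rw [mem_cox_notMem (fun hm => huR (hl u hm)), mem_sw_ne hr H A hub huc]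
  have hbT : b ∈ (tog r b (cox r l (sw hr H A))).1 ↔
      c ∉ A.1 ∧ b ∉ A.1 ∧ FF r b c A ∧ ZZ b R (cox r l (sw hr H A)) := by
    rw [mem_tog_b hr H, mem_cox_notMem hbl, mem_cox_notMem hcl, hbs, hcs, hFs]
    exact prop2 _ _ _ _ _
  apply St.ext'
  intro y
  by_cases hb : y = b
  · subst hb
    rw [mem_sw_b, mem_cox_notMem hcl, hc2, hZZ, mem_tog_ne H.ne, hbT]
    rw [and_assoc, and_assoc]
  · by_cases hc : y = c
    · subst hc
      rw [mem_sw_c, mem_cox_notMem hbl, mem_cox_notMem hcl, hb2, hc2, hZZ, mem_tog_c hr H, hbT,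
        mem_tog_ne (Ne.symm H.ne), mem_cox_notMem hcl, hcs]
      have hF2 : FF r b y (tog r b (cox r l (sw hr H A))) ↔ FF r b y A := by
        rw [← hFs]
        exact FF_congr H fun u hub _ _ => mem_tog_ne hub _
      rw [hF2]
      exact prop3 _ _ _ _ _ f1 f2 f3 f4
    · rw [mem_sw_ne hr H _ hb hc, mem_tog_ne hc, mem_tog_ne hb]
      by_cases hy : R y
      · exact hR y hy
      · have hyl : y ∉ l := fun hm => hy (hl y hm)
        rw [mem_cox_notMem hyl, mem_cox_notMem hyl, mem_sw_ne hr H _ hb hc, mem_tog_ne hb,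
          mem_tog_ne hc]

lemma split_list (hr : ∀ x, ¬ r x x) (H : Exch r b c R) (l : List α) (hb : b ∉ l) :
    ∃ g t : List α, (∀ x ∈ g, x ∈ l ∧ ¬ R x) ∧ (∀ x ∈ t, x ∈ l ∧ R x) ∧
      cox r l = cox r g * cox r t := by
  induction l with
  | nil => exact ⟨[], [], by simp, by simp, by simp⟩
  | cons x l ih =>
    simp only [List.mem_cons, not_or] at hb
    obtain ⟨g, t, h1, h2, h3⟩ := ih hb.2
    by_cases hx : R x
    · refine ⟨g, x :: t, fun y hy => ⟨by simp [(h1 y hy).1], (h1 y hy).2⟩, ?_, ?_⟩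
      · intro y hy
        rcases List.mem_cons.1 hy with rfl | hy
        · exact ⟨by simp, hx⟩
        · exact ⟨by simp [(h2 y hy).1], (h2 y hy).2⟩
      · rw [cox_cons, cox_cons, h3]
        have e := cox_comm (r := r) hr (l := g) (l' := [x]) (by
          intro a ha y hy
          rw [List.mem_singleton] at hy
          subst hy
          exact H.LR a y (fun e => hb.2 (e ▸ (h1 a ha).1)) (h1 a ha).2 hx)
        simp only [cox_cons, cox_nil, mul_one] at e
        rw [← mul_assoc, ← e, mul_assoc]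
    · refine ⟨x :: g, t, ?_, fun y hy => ⟨by simp [(h2 y hy).1], (h2 y hy).2⟩, ?_⟩
      · intro y hy
        rcases List.mem_cons.1 hy with rfl | hy
        · exact ⟨by simp, hx⟩
        · exact ⟨by simp [(h1 y hy).1], (h1 y hy).2⟩
      · rw [cox_cons, cox_cons, h3, mul_assoc]

lemma chi_pos {v : α} {A : St r} (h : v ∈ A.1) : chi v A = 1 := if_pos h

lemma chi_neg {v : α} {A : St r} (h : v ∉ A.1) : chi v A = 0 := if_neg h

/-- The exchange lemma. -/
theorem exchange (hr : ∀ x, ¬ r x x) (H : Exch r b c R) {l : List α} (hb : b ∉ l) (hc : c ∉ l) :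
    Eqv (cox r (l ++ [c, b])) (cox r (l ++ [b, c])) := by
  obtain ⟨g, t, hg, ht, hl⟩ := split_list (R := R) hr H l hb
  have hbg : b ∉ g := fun e => hb (hg b e).1
  have hcg : c ∉ g := fun e => hc (hg c e).1
  have hbt : b ∉ t := fun e => hb (ht b e).1
  have hct : c ∉ t := fun e => hc (ht c e).1
  have hgt : cox r g * cox r t = cox r t * cox r g := cox_comm hr (by
    intro x hx y hy
    exact H.LR x y (fun e => hbg (e ▸ hx)) (hg x hx).2 (ht y hy).2)
  have hgs : swP hr H * cox r g = cox r g * swP hr H := sw_comm_cox hr H (by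
    intro z hz
    exact ⟨fun e => hbg (e ▸ hz), fun e => hcg (e ▸ hz), (hg z hz).2⟩)
  have hst := star hr H (l := t) (fun z hz => (ht z hz).2)
  have hw' : cox r (l ++ [b, c]) = cox r g * (cox r t * (togP r b * togP r c)) := by
    rw [cox_append, hl]; simp [mul_assoc]
  have hw : cox r (l ++ [c, b]) = cox r g * (cox r t * (togP r c * togP r b)) := by
    rw [cox_append, hl]; simp [mul_assoc]
  -- action of w'
  have hw'A : ∀ A, cox r (l ++ [b, c]) A = cox r g (cox r t (tog r b (tog r c A))) := by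
    intro A; rw [hw']; rfl
  have hb2 : ∀ A : St r, b ∈ (tog r b (tog r c A)).1 ↔ b ∈ (sw hr H A).1 := by
    intro A
    have hFc : FF r b c (tog r c A) ↔ FF r b c A :=
      FF_congr H fun u _ _ hadj => mem_tog_ne (x := c) (y := u) (fun e => adj_irr hr c (by rwa [e] at hadj)) A
    have hZc : ZZ b R (tog r c A) ↔ ZZ b R A :=
      ZZ_congr fun u hu => mem_tog_ne (x := c) (y := u) (fun e => H.Rc (e ▸ hu)) A
    have f1 : b ∈ A.1 → ZZ b R A := ZZ_of_mem
    have f2 : b ∈ A.1 → c ∉ A.1 := H.notboth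
    have f3 : b ∈ A.1 → FF r b c A := FF_of_b H
    have f4 : c ∈ A.1 → FF r b c A := FF_of_c
    rw [mem_tog_b hr H, mem_tog_c hr H A, hFc, hZc, mem_tog_ne H.ne, mem_sw_b]
    exact prop1 _ _ _ _ f1 f2 f3 f4
  have hRR : ∀ A : St r, ∀ u, R u → (u ∈ (tog r b (tog r c A)).1 ↔ u ∈ (sw hr H A).1) := by
    intro A u hu
    have hub : u ≠ b := fun e => H.Rb (e ▸ hu)
    have huc : u ≠ c := fun e => H.Rc (e ▸ hu)
    rw [mem_tog_ne hub, mem_tog_ne huc, sw_R hr H A hu]
  refine ⟨cox r t * swP hr H, ?_, fun v => ?_⟩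
  · calc cox r (l ++ [c, b]) * (cox r t * swP hr H)
        = cox r g * (cox r t * (togP r c * (togP r b * (cox r t * swP hr H)))) := by
          rw [hw]; simp only [mul_assoc]
      _ = cox r g * (cox r t * (swP hr H * (cox r t * (togP r b * togP r c)))) := by rw [← hst]
      _ = (cox r g * cox r t) * (swP hr H * (cox r t * (togP r b * togP r c))) := by
          simp only [mul_assoc]
      _ = cox r t * (cox r g * swP hr H) * (cox r t * (togP r b * togP r c)) := by
          rw [hgt]; simp only [mul_assoc]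
      _ = cox r t * (swP hr H * cox r g) * (cox r t * (togP r b * togP r c)) := by rw [hgs]
      _ = (cox r t * swP hr H) * cox r (l ++ [b, c]) := by rw [hw']; simp only [mul_assoc]
  · by_cases hvb : v = b
    · subst hvb
      refine ⟨chi v, fun A => ?_⟩
      have e : chi v ((cox r t * swP hr H) A) = chi v (cox r (l ++ [v, c]) A) := by
        apply chi_congr
        rw [hw'A, mem_cox_notMem hbg, mem_cox_notMem hbt, hb2 A]
        show v ∈ (cox r t (sw hr H A)).1 ↔ _
        rw [mem_cox_notMem hbt]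
      rw [e]
    · by_cases hvc : v = c
      · subst hvc
        refine ⟨fun A => - chi b A, fun A => ?_⟩
        have e : chi v ((cox r t * swP hr H) A) = chi v (sw hr H A) := by
          apply chi_congr
          show v ∈ (cox r t (sw hr H A)).1 ↔ _
          rw [mem_cox_notMem hct]
        have e2 : chi b (cox r (l ++ [b, v]) A) = chi b (sw hr H A) := by
          apply chi_congr
          rw [hw'A, mem_cox_notMem hbg, mem_cox_notMem hbt, hb2 A]
        show chi v ((cox r t * swP hr H) A) - chi v A = - chi b (cox r (l ++ [b, v]) A) - - chi b A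
        rw [e, e2]
        have f1 : b ∈ A.1 → ZZ b R A := ZZ_of_mem
        have f2 : b ∈ A.1 → v ∉ A.1 := H.notboth
        have m1 := mem_sw_b hr H A
        have m2 := mem_sw_c hr H A
        by_cases a1 : b ∈ A.1
        · have a2 := f2 a1
          rw [chi_pos a1, chi_neg a2, chi_pos (m2.2 (Or.inl a1)), chi_neg (fun h => a2 (m1.1 h).1)]
          norm_num
        · by_cases a2 : v ∈ A.1
          · by_cases a3 : ZZ b R A
            · rw [chi_pos a2, chi_neg a1, chi_pos (m1.2 ⟨a2, a3⟩), chi_neg (fun h => by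
                rcases m2.1 h with h | h
                · exact a1 h
                · exact h.2 a3)]
              norm_num
            · rw [chi_pos a2, chi_neg a1, chi_neg (fun h => a3 (m1.1 h).2),
                chi_pos (m2.2 (Or.inr ⟨a2, a3⟩))]
              norm_num
          · rw [chi_neg a2, chi_neg a1, chi_neg (fun h => a2 (m1.1 h).1), chi_neg (fun h => by
                rcases m2.1 h with h | h
                · exact a1 h
                · exact a2 h.1)]
            norm_num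
      · by_cases hR : R v
        · refine ⟨chi v, fun A => ?_⟩
          have e : chi v ((cox r t * swP hr H) A) = chi v (cox r (l ++ [b, c]) A) := by
            apply chi_congr
            have hvg : v ∉ g := fun e => (hg v e).2 hR
            rw [hw'A, mem_cox_notMem hvg]
            exact (cox_R hr H (fun z hz => (ht z hz).2) (hb2 A) (hRR A) v hR).symm
          rw [e]
        · refine ⟨fun _ => 0, fun A => ?_⟩
          have e : chi v ((cox r t * swP hr H) A) = chi v A := by
            apply chi_congr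
            show v ∈ (cox r t (sw hr H A)).1 ↔ _
            rw [mem_cox_notMem (fun e => hR (ht v e).2), mem_sw_ne hr H A hvb hvc]
          rw [e]
          show _ = (0 : ℝ) - 0
          ring

end Pool.Agent.Q33.Fence
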