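import Pool.Agent.Q33.Fence.Words

/-!
# All orders of the toggles give equivalent products
-/

namespace Pool.Agent.Q33.Fence

open Finset

set_option linter.unusedSectionVars false

variable {α : Type*} [DecidableEq α] {r : α → α → Prop}

/-- A pair of cut vertices. -/
def Tp (r : α → α → Prop) (u v : α) : Prop :=
  ∃ C L : α → Prop,
    (∀ z, z ≠ u → z ≠ v → C z → ∀ y, y ≠ z → Al r z y) ∧
    (∀ z, z ≠ u → z ≠ v → ¬ C z → L z → ¬ adj r z v) ∧
    (∀ z, z ≠ u → z ≠ v → ¬ C z → ¬ L z → ¬ adj r z u) ∧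
    (∀ z y, z ≠ u → z ≠ v → y ≠ u → y ≠ v → ¬ C z → ¬ C y → L z → ¬ L y → ¬ adj r z y)

lemma nodup_of {l1 l2 : List α} (h : l1.Nodup) (e : (l1 : Multiset α) = l2) : l2.Nodup :=
  (Multiset.coe_eq_coe.1 e).nodup_iff.1 h

open Classical in
lemma swapTp (hr : ∀ x, ¬ r x x) {a b : α} (h : Tp r a b) {Y : List α}
    (hn : ([a] ++ ([b] ++ Y)).Nodup) :
    Eqv (cox r ([a] ++ ([b] ++ Y))) (cox r ([b] ++ ([a] ++ Y))) := by
  obtain ⟨C, L, h1, h2, h3, h4⟩ := h
  set CP := Y.filter (fun x => decide (C x)) with hCP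
  set RS := Y.filter (fun x => ! decide (C x)) with hRS
  set LP := RS.filter (fun x => decide (L x)) with hLP
  set RP := RS.filter (fun x => ! decide (L x)) with hRP
  have hYa : ∀ z ∈ Y, z ≠ a := by
    rintro z hz rfl
    simp [hz] at hn
  have hYb : ∀ z ∈ Y, z ≠ b := by
    rintro z hz rfl
    simp [hz] at hn
  have mCP : ∀ z ∈ CP, z ∈ Y ∧ C z := by
    intro z hz
    rw [hCP, List.mem_filter] at hz
    simpa using hz
  have mRS : ∀ z ∈ RS, z ∈ Y ∧ ¬ C z := by
    intro z hz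
    rw [hRS, List.mem_filter] at hz
    simpa using hz
  have mLP : ∀ z ∈ LP, z ∈ RS ∧ L z := by
    intro z hz
    rw [hLP, List.mem_filter] at hz
    simpa using hz
  have mRP : ∀ z ∈ RP, z ∈ RS ∧ ¬ L z := by
    intro z hz
    rw [hRP, List.mem_filter] at hz
    simpa using hz
  have p1 : (Y : Multiset α) = ((CP ++ RS : List α) : Multiset α) :=
    (Multiset.coe_eq_coe.2 (List.filter_append_perm (fun x => decide (C x)) Y)).symm
  have p2 : (RS : Multiset α) = ((LP ++ RP : List α) : Multiset α) :=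
    (Multiset.coe_eq_coe.2 (List.filter_append_perm (fun x => decide (L x)) RS)).symm
  have hab : a ≠ b := by
    rintro rfl
    simp at hn
  -- first chain
  have n1 : (([a] ++ [b]) ++ Y).Nodup := by simpa using hn
  have t1 : Eqv (cox r (([a] ++ [b]) ++ Y)) (cox r (([a] ++ [b]) ++ (CP ++ RS))) := by
    refine split_pred hr C ?_ n1
    intro x hx y hy hCx hCy
    exact h1 x (hYa x hx) (hYb x hx) hCx y (fun e => hCy (e ▸ hCx))
  have n2 : ([a] ++ ([b] ++ (CP ++ RS))).Nodup := by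
    refine nodup_of n1 ?_
    simp only [← Multiset.coe_add, p1]
    abel
  have t2 : Eqv (cox r ([a] ++ ([b] ++ (CP ++ RS)))) (cox r ([a] ++ (CP ++ ([b] ++ RS)))) := by
    refine blockSwap hr ?_ n2
    intro p hp q hq
    rw [List.mem_singleton] at hp
    subst hp
    obtain ⟨hqY, hqC⟩ := mCP q hq
    exact (h1 q (hYa q hqY) (hYb q hqY) hqC p (Ne.symm (hYb q hqY))).symm
  have n3 : ((([a] ++ CP) ++ [b]) ++ RS).Nodup := by
    refine nodup_of n2 ?_
    simp only [← Multiset.coe_add]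
    abel
  have hLR : ∀ x ∈ RS, ∀ y ∈ RS, L x → ¬ L y → Al r x y := by
    intro x hx y hy hLx hLy
    obtain ⟨hxY, hxC⟩ := mRS x hx
    obtain ⟨hyY, hyC⟩ := mRS y hy
    exact Or.inl (h4 x y (hYa x hxY) (hYb x hxY) (hYa y hyY) (hYb y hyY) hxC hyC hLx hLy)
  have t3 : Eqv (cox r ((([a] ++ CP) ++ [b]) ++ RS)) (cox r ((([a] ++ CP) ++ [b]) ++ (LP ++ RP))) :=
    split_pred hr L hLR n3
  have n4 : (([a] ++ CP) ++ ([b] ++ (LP ++ RP))).Nodup := by
    refine nodup_of n3 ?_
    simp only [← Multiset.coe_add, p2]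
    abel
  have t4 : Eqv (cox r (([a] ++ CP) ++ ([b] ++ (LP ++ RP))))
      (cox r (([a] ++ CP) ++ (LP ++ ([b] ++ RP)))) := by
    refine blockSwap hr ?_ n4
    intro p hp q hq
    rw [List.mem_singleton] at hp
    subst hp
    obtain ⟨hq1, hqL⟩ := mLP q hq
    obtain ⟨hqY, hqC⟩ := mRS q hq1
    exact Or.inl fun e => h2 q (hYa q hqY) (hYb q hqY) hqC hqL (adj_symm e)
  have n5 : ((([a] ++ CP) ++ LP) ++ ([b] ++ RP)).Nodup := by
    refine nodup_of n4 ?_
    simp only [← Multiset.coe_add]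
    abel
  have t5 : Eqv (cox r ((([a] ++ CP) ++ LP) ++ ([b] ++ RP)))
      (cox r (([b] ++ RP) ++ (([a] ++ CP) ++ LP))) := rot n5
  have n6 : ([b] ++ (RP ++ ((([a] ++ CP) ++ LP) ++ []))).Nodup := by
    refine nodup_of n5 ?_
    simp only [← Multiset.coe_add, Multiset.coe_nil]
    abel
  have t6 : Eqv (cox r ([b] ++ (RP ++ ((([a] ++ CP) ++ LP) ++ []))))
      (cox r ([b] ++ ((([a] ++ CP) ++ LP) ++ (RP ++ [])))) := by
    refine blockSwap hr ?_ n6
    intro p hp q hq
    obtain ⟨hp1, hpL⟩ := mRP p hp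
    obtain ⟨hpY, hpC⟩ := mRS p hp1
    rw [List.mem_append, List.mem_append, List.mem_singleton] at hq
    rcases hq with (hq | hq) | hq
    · subst hq
      exact Or.inl (h3 p (hYa p hpY) (hYb p hpY) hpC hpL)
    · obtain ⟨hqY, hqC⟩ := mCP q hq
      exact (h1 q (hYa q hqY) (hYb q hqY) hqC p (fun e => hpC (e ▸ hqC))).symm
    · obtain ⟨hq1, hqL⟩ := mLP q hq
      exact (hLR q hq1 p hp1 hqL hpL).symm
  -- second chain
  have m1 : (([b] ++ [a]) ++ Y).Nodup := by
    refine nodup_of n1 ?_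
    simp only [← Multiset.coe_add]
    abel
  have u1 : Eqv (cox r (([b] ++ [a]) ++ Y)) (cox r (([b] ++ [a]) ++ (CP ++ RS))) := by
    refine split_pred hr C ?_ m1
    intro x hx y hy hCx hCy
    exact h1 x (hYa x hx) (hYb x hx) hCx y (fun e => hCy (e ▸ hCx))
  have m2 : ((([b] ++ [a]) ++ CP) ++ RS).Nodup := by
    refine nodup_of m1 ?_
    simp only [← Multiset.coe_add, p1]
    abel
  have u2 : Eqv (cox r ((([b] ++ [a]) ++ CP) ++ RS)) (cox r ((([b] ++ [a]) ++ CP) ++ (LP ++ RP))) :=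
    split_pred hr L hLR m2
  simp only [List.append_assoc, List.append_nil] at t1 t2 t3 t4 t5 t6 u1 u2 ⊢
  exact (((((t1.trans t2).trans t3).trans t4).trans t5).trans t6).trans ((u1.trans u2).symm)

theorem swapAll (hr : ∀ x, ¬ r x x) (hp : ∀ u v, u ≠ v → Al r u v ∨ Tp r u v ∨ Tp r v u)
    {u v : α} {X Y : List α} (hn : (X ++ ([u] ++ ([v] ++ Y))).Nodup) :
    Eqv (cox r (X ++ ([u] ++ ([v] ++ Y)))) (cox r (X ++ ([v] ++ ([u] ++ Y)))) := by
  have huv : u ≠ v := by
    rintro rfl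
    have := (List.nodup_append.1 hn).2.1
    simp at this
  have n1 : ([u] ++ ([v] ++ (Y ++ X))).Nodup := by
    refine nodup_of hn ?_
    simp only [← Multiset.coe_add]
    abel
  have n2 : (([v] ++ ([u] ++ Y)) ++ X).Nodup := by
    refine nodup_of hn ?_
    simp only [← Multiset.coe_add]
    abel
  have n3 : ([v] ++ ([u] ++ (Y ++ X))).Nodup := by
    refine nodup_of hn ?_
    simp only [← Multiset.coe_add]
    abel
  have s1 := rot (r := r) hn
  have s2 : Eqv (cox r ([u] ++ ([v] ++ (Y ++ X)))) (cox r ([v] ++ ([u] ++ (Y ++ X)))) := by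
    rcases hp u v huv with h | h | h
    · exact swapAt (X := []) hr h n1
    · exact swapTp hr h n1
    · exact (swapTp hr h n3).symm
  have s3 := rot (r := r) n2
  simp only [List.append_assoc] at s1 s2 s3 ⊢
  exact (s1.trans s2).trans s3

theorem perm_eqv (hr : ∀ x, ¬ r x x) (hp : ∀ u v, u ≠ v → Al r u v ∨ Tp r u v ∨ Tp r v u)
    {l l' : List α} (h : l.Perm l') :
    ∀ X : List α, (X ++ l).Nodup → Eqv (cox r (X ++ l)) (cox r (X ++ l')) := by
  induction h with
  | nil => intro X _; exact Eqv.refl _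
  | cons x _ ih =>
    intro X hn
    have := ih (X ++ [x]) (by simpa using hn)
    simpa using this
  | swap x y l =>
    intro X hn
    exact swapAll hr hp hn
  | trans h1 h2 ih1 ih2 =>
    intro X hn
    exact (ih1 X hn).trans (ih2 X ((List.Perm.append_left X h1).nodup_iff.1 hn))

/-- Betweenness. -/
def bt (i j t : ℕ) : Prop := (i < t ∧ t < j) ∨ (j < t ∧ t < i)

lemma bt_cases {i j k t : ℕ} (h : bt i k t) : t = j ∨ bt i j t ∨ bt j k t := by
  unfold bt at *; omega

lemma exch_of (idx : α → ℕ) (hi : Function.Injective idx) (turn : ℕ → Prop)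
    (hadj : ∀ u v, adj r u v ↔ idx u ≠ idx v ∧ ∀ t, bt (idx u) (idx v) t → ¬ turn t)
    {b c : α} (hbc : adj r b c) (hc : ¬ turn (idx c)) : ∃ R, Exch r b c R := by
  refine ⟨fun z => turn (idx b) ∧ bt (idx z) (idx c) (idx b), ?_⟩
  have h0 := (hadj b c).1 hbc
  refine ⟨hbc, fun e => h0.1 (by rw [e]), ?_, ?_, ?_, ?_⟩
  · rintro ⟨_, h⟩; unfold bt at h; omega
  · rintro ⟨_, h⟩; unfold bt at h; omega
  · intro z hzb hzc hR
    rw [hadj, hadj]
    have i1 : idx z ≠ idx b := fun e => hzb (hi e)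
    have i2 : idx z ≠ idx c := fun e => hzc (hi e)
    simp only [i1, i2, ne_eq, not_false_eq_true, true_and]
    constructor
    · intro h t ht ht2
      rcases bt_cases (j := idx b) ht with e | e | e
      · exact hR ⟨e ▸ ht2, e ▸ ht⟩
      · exact h t e ht2
      · exact h0.2 t e ht2
    · intro h t ht ht2
      rcases bt_cases (j := idx c) ht with e | e | e
      · exact hc (e ▸ ht2)
      · exact h t e ht2
      · exact h0.2 t (by unfold bt at *; omega) ht2
  · rintro z y hzb hR ⟨hy1, hy2⟩ h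
    rw [hadj] at h
    have i1 : idx z ≠ idx b := fun e => hzb (hi e)
    refine h.2 (idx b) ?_ hy1
    have : ¬ bt (idx z) (idx c) (idx b) := fun e => hR ⟨hy1, e⟩
    have h1 := h0.1
    unfold bt at *; omega

theorem pairs (idx : α → ℕ) (hi : Function.Injective idx) (turn : ℕ → Prop)
    (hadj : ∀ u v, adj r u v ↔ idx u ≠ idx v ∧ ∀ t, bt (idx u) (idx v) t → ¬ turn t) :
    ∀ u v, u ≠ v → Al r u v ∨ Tp r u v ∨ Tp r v u := by
  have al : ∀ z y, ¬ turn (idx z) → Al r z y := by
    intro z y hz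
    by_cases h : adj r z y
    · exact Or.inr (Or.inr (exch_of idx hi turn hadj (adj_symm h) hz))
    · exact Or.inl h
  have tp : ∀ a b, idx a < idx b → adj r a b → turn (idx a) → turn (idx b) → Tp r a b := by
    intro a b hab hadjab ha hb
    have h0 := ((hadj a b).1 hadjab).2
    refine ⟨fun z => ¬ turn (idx z), fun z => idx z < idx a, ?_, ?_, ?_, ?_⟩
    · intro z _ _ hz y _
      exact al z y hz
    · intro z _ _ hz hL h
      exact ((hadj z b).1 h).2 (idx a) (by unfold bt; omega) ha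
    · intro z hza hzb hz hL h
      have i1 : idx z ≠ idx a := fun e => hza (hi e)
      have i2 : idx z ≠ idx b := fun e => hzb (hi e)
      have i3 : ¬ bt (idx a) (idx b) (idx z) := fun e => h0 _ e (not_not.1 hz)
      exact ((hadj z a).1 h).2 (idx b) (by unfold bt at *; omega) hb
    · intro z y hza hzb hya hyb hz hy hL hL' h
      have i1 : idx y ≠ idx a := fun e => hya (hi e)
      exact ((hadj z y).1 h).2 (idx a) (by unfold bt at *; omega) ha
  intro u v huv
  by_cases h : adj r u v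
  · by_cases h1 : turn (idx u)
    · by_cases h2 : turn (idx v)
      · right
        rcases lt_trichotomy (idx u) (idx v) with h3 | h3 | h3
        · exact Or.inl (tp u v h3 h h1 h2)
        · exact absurd (hi h3) huv
        · exact Or.inr (tp v u h3 (adj_symm h) h2 h1)
      · exact Or.inl (al v u h2).symm
    · exact Or.inl (al u v h1)
  · exact Or.inl (Or.inl h)

end Pool.Agent.Q33.Fence
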