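import Pool.Agent.Q33.Fence.Exch

/-!
# Moves on words of toggles
-/

namespace Pool.Agent.Q33.Fence

open Finset

set_option linter.unusedSectionVars false

variable {α : Type*} [DecidableEq α] {r : α → α → Prop}

lemma rot {X Y : List α} (h : (X ++ Y).Nodup) : Eqv (cox r (X ++ Y)) (cox r (Y ++ X)) := by
  induction X generalizing Y with
  | nil => rw [List.nil_append, List.append_nil]; exact Eqv.refl _
  | cons x X ih =>
    have hx : x ∉ X ++ Y := by
      rw [List.cons_append, List.nodup_cons] at h; exact h.1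
    have h2 : (X ++ (Y ++ [x])).Nodup := by
      refine (List.Perm.nodup_iff ?_).1 h
      rw [← List.append_assoc, List.cons_append]
      exact (List.perm_append_singleton x (X ++ Y)).symm
    have e1 : Eqv (cox r (x :: (X ++ Y))) (cox r ((X ++ Y) ++ [x])) := rot_one hx
    have e2 := ih h2
    rw [List.append_assoc] at e1
    have e3 : (Y ++ [x]) ++ X = Y ++ x :: X := by simp
    rw [e3] at e2
    exact e1.trans e2

/-- Allowed pairs. -/
def Al (r : α → α → Prop) (u v : α) : Prop :=
  ¬ adj r u v ∨ (∃ R, Exch r u v R) ∨ (∃ R, Exch r v u R)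

lemma Al.symm {u v : α} (h : Al r u v) : Al r v u := by
  rcases h with h | h | h
  · exact Or.inl fun e => h (adj_symm e)
  · exact Or.inr (Or.inr h)
  · exact Or.inr (Or.inl h)

lemma swapEnd (hr : ∀ x, ¬ r x x) {u v : α} (h : Al r u v) {l : List α} (hu : u ∉ l) (hv : v ∉ l) :
    Eqv (cox r (l ++ [u, v])) (cox r (l ++ [v, u])) := by
  rcases h with h | ⟨R, h⟩ | ⟨R, h⟩
  · apply Eqv.of_eq
    rw [cox_append, cox_append]
    simp only [cox_cons, cox_nil, mul_one]
    rw [tog_comm hr h]
  · exact (exchange hr h hu hv).symm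
  · exact exchange hr h hv hu

lemma swapAt (hr : ∀ x, ¬ r x x) {u v : α} (h : Al r u v) {X Y : List α}
    (hn : (X ++ u :: v :: Y).Nodup) :
    Eqv (cox r (X ++ u :: v :: Y)) (cox r (X ++ v :: u :: Y)) := by
  have e1 : X ++ u :: v :: Y = (X ++ [u, v]) ++ Y := by simp
  have e2 : X ++ v :: u :: Y = (X ++ [v, u]) ++ Y := by simp
  have n1 : ((X ++ [u, v]) ++ Y).Nodup := by rw [← e1]; exact hn
  have p : List.Perm (X ++ u :: v :: Y) (X ++ v :: u :: Y) :=
    List.Perm.append_left X (List.Perm.swap v u Y)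
  have n2 : (Y ++ (X ++ [v, u])).Nodup := by
    refine (List.Perm.nodup_iff ?_).1 hn
    refine p.trans ?_
    rw [e2]
    exact List.perm_append_comm
  have n3 : (u :: v :: (Y ++ X)).Nodup := by
    refine (List.Perm.nodup_iff ?_).1 n1
    rw [← e1]
    refine List.perm_append_comm.trans ?_
    show List.Perm (u :: v :: (Y ++ X)) _
    exact List.Perm.refl _
  have hu : u ∉ Y ++ X := by
    intro hm
    exact (List.nodup_cons.1 n3).1 (List.mem_cons_of_mem _ hm)
  have hv : v ∉ Y ++ X := (List.nodup_cons.1 (List.nodup_cons.1 n3).2).1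
  have s1 : Eqv (cox r ((X ++ [u, v]) ++ Y)) (cox r (Y ++ (X ++ [u, v]))) := rot n1
  have s2 : Eqv (cox r (Y ++ (X ++ [u, v]))) (cox r (Y ++ (X ++ [v, u]))) := by
    rw [← List.append_assoc, ← List.append_assoc]
    exact swapEnd hr h hu hv
  have s3 : Eqv (cox r (Y ++ (X ++ [v, u]))) (cox r ((X ++ [v, u]) ++ Y)) := rot n2
  rw [e1, e2]
  exact (s1.trans s2).trans s3

lemma blockOne (hr : ∀ x, ¬ r x x) {p : α} {Q X Z : List α} (h : ∀ q ∈ Q, Al r p q)
    (hn : (X ++ p :: (Q ++ Z)).Nodup) :
    Eqv (cox r (X ++ p :: (Q ++ Z))) (cox r (X ++ (Q ++ p :: Z))) := by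
  induction Q generalizing X with
  | nil => exact Eqv.refl _
  | cons q Q ih =>
    have s1 : Eqv (cox r (X ++ p :: q :: (Q ++ Z))) (cox r (X ++ q :: p :: (Q ++ Z))) :=
      swapAt hr (h q (by simp)) hn
    have pp : List.Perm (X ++ p :: q :: (Q ++ Z)) (X ++ q :: p :: (Q ++ Z)) :=
      List.Perm.append_left X (List.Perm.swap q p _)
    have e1 : X ++ q :: p :: (Q ++ Z) = (X ++ [q]) ++ p :: (Q ++ Z) := by simp
    have n2 : ((X ++ [q]) ++ p :: (Q ++ Z)).Nodup := by
      rw [← e1]; exact (List.Perm.nodup_iff pp).1 hn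
    have s2 := ih (X := X ++ [q]) (fun x hx => h x (by simp [hx])) n2
    have e2 : (X ++ [q]) ++ (Q ++ p :: Z) = X ++ ((q :: Q) ++ p :: Z) := by simp
    rw [e2, ← e1] at s2
    exact s1.trans s2

lemma blockSwap (hr : ∀ x, ¬ r x x) {P Q X Z : List α} (h : ∀ p ∈ P, ∀ q ∈ Q, Al r p q)
    (hn : (X ++ (P ++ (Q ++ Z))).Nodup) :
    Eqv (cox r (X ++ (P ++ (Q ++ Z)))) (cox r (X ++ (Q ++ (P ++ Z)))) := by
  induction P generalizing X with
  | nil => exact Eqv.refl _
  | cons p P ih =>
    have e1 : X ++ ((p :: P) ++ (Q ++ Z)) = (X ++ [p]) ++ (P ++ (Q ++ Z)) := by simp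
    have n1 : ((X ++ [p]) ++ (P ++ (Q ++ Z))).Nodup := by rw [← e1]; exact hn
    have s1 := ih (X := X ++ [p]) (fun x hx => h x (by simp [hx])) n1
    have e2 : (X ++ [p]) ++ (Q ++ (P ++ Z)) = X ++ p :: (Q ++ (P ++ Z)) := by simp
    rw [← e1, e2] at s1
    have pp : List.Perm ((X ++ [p]) ++ (P ++ (Q ++ Z))) (X ++ p :: (Q ++ (P ++ Z))) := by
      rw [← e2]
      apply List.Perm.append_left
      rw [← List.append_assoc, ← List.append_assoc]
      exact List.Perm.append_right Z List.perm_append_comm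
    have n2 : (X ++ p :: (Q ++ (P ++ Z))).Nodup := (List.Perm.nodup_iff pp).1 n1
    have s2 := blockOne (r := r) hr (p := p) (Q := Q) (X := X) (Z := P ++ Z)
      (fun q hq => h p (by simp) q hq) n2
    exact s1.trans s2

open Classical in
lemma split_pred (hr : ∀ x, ¬ r x x) (p : α → Prop) {X Y : List α}
    (h : ∀ x ∈ Y, ∀ y ∈ Y, p x → ¬ p y → Al r x y) (hn : (X ++ Y).Nodup) :
    Eqv (cox r (X ++ Y)) (cox r (X ++ (Y.filter (fun x => decide (p x)) ++
      Y.filter (fun x => ! decide (p x))))) := by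
  induction Y generalizing X with
  | nil => exact Eqv.refl _
  | cons y Y ih =>
    have e1 : X ++ y :: Y = (X ++ [y]) ++ Y := by simp
    have n1 : ((X ++ [y]) ++ Y).Nodup := by rw [← e1]; exact hn
    have s1 := ih (X := X ++ [y]) (fun a ha b hb => h a (by simp [ha]) b (by simp [hb])) n1
    by_cases hy : p y
    · have f1 : (y :: Y).filter (fun x => decide (p x)) = y :: Y.filter (fun x => decide (p x)) := by
        simp [hy]
      have f2 : (y :: Y).filter (fun x => ! decide (p x)) = Y.filter (fun x => ! decide (p x)) := by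
        simp [hy]
      rw [f1, f2, e1]
      have e2 : X ++ (y :: Y.filter (fun x => decide (p x)) ++ Y.filter (fun x => ! decide (p x))) =
        (X ++ [y]) ++ (Y.filter (fun x => decide (p x)) ++ Y.filter (fun x => ! decide (p x))) := by
        simp
      rw [e2]
      exact s1
    · have f1 : (y :: Y).filter (fun x => decide (p x)) = Y.filter (fun x => decide (p x)) := by
        simp [hy]
      have f2 : (y :: Y).filter (fun x => ! decide (p x)) =
          y :: Y.filter (fun x => ! decide (p x)) := by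
        simp [hy]
      rw [f1, f2, e1]
      have e2 : (X ++ [y]) ++ (Y.filter (fun x => decide (p x)) ++
          Y.filter (fun x => ! decide (p x))) =
          X ++ y :: (Y.filter (fun x => decide (p x)) ++ Y.filter (fun x => ! decide (p x))) := by
        simp
      rw [e2] at s1
      have pp : List.Perm ((X ++ [y]) ++ Y)
          (X ++ y :: (Y.filter (fun x => decide (p x)) ++ Y.filter (fun x => ! decide (p x)))) := by
        rw [← e2]
        apply List.Perm.append_left
        exact (List.filter_append_perm (fun x => decide (p x)) Y).symm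
      have n2 := (List.Perm.nodup_iff pp).1 n1
      refine s1.trans (blockOne hr ?_ n2)
      intro q hq
      rw [List.mem_filter] at hq
      exact (h q (by simp [hq.1]) y (by simp) (by simpa using hq.2) hy).symm

end Pool.Agent.Q33.Fence
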